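import Pool.Agent.helper10.CM.MP
import Pool.Agent.helper35.CM.LAT

/-! # CM project, module FAM: the finite family of isotropic lattices -/

open scoped BigOperators

namespace Pool.Agent.helper86.CM

noncomputable section

variable {L : Type} [AddCommGroup L] [Module.Free ℤ L] [Module.Finite ℤ L]

/-- sorting a finite set by decreasing values of a function -/
lemma FAM_sort {α : Type} [DecidableEq α] (f : α → ℕ) (x₀ : α) (n : ℕ) :
    ∀ F : Finset α, F.card = n → ∃ g : ℕ → α, (∀ j < n, g j ∈ F) ∧ (∀ x ∈ F, ∃ j < n, g j = x) ∧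
      (∀ i < n, ∀ j < n, g i = g j → i = j) ∧ (∀ i j, i ≤ j → j < n → f (g j) ≤ f (g i)) := by
  induction n with
  | zero =>
    intro F hF
    refine ⟨fun _ => x₀, by simp, ?_, by simp, by simp⟩
    intro x hx
    rw [Finset.card_eq_zero] at hF
    rw [hF] at hx; simp at hx
  | succ n ih =>
    intro F hF
    have hne : F.Nonempty := by rw [← Finset.card_pos]; omega
    obtain ⟨x, hx, hmin⟩ := Finset.exists_min_image F f hne
    obtain ⟨g, h1, h2, h3, h4⟩ := ih (F.erase x) (by rw [Finset.card_erase_of_mem hx]; omega)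
    refine ⟨fun j => if j < n then g j else x, ?_, ?_, ?_, ?_⟩
    · intro j _
      by_cases hj : j < n
      · simp only [hj, if_true]; exact Finset.mem_of_mem_erase (h1 j hj)
      · simp only [hj, if_false]; exact hx
    · intro y hy
      by_cases hyx : y = x
      · exact ⟨n, Nat.lt_succ_self n, by simp [hyx]⟩
      · obtain ⟨j, hj, hg⟩ := h2 y (Finset.mem_erase.2 ⟨hyx, hy⟩)
        exact ⟨j, by omega, by simp [hj, hg]⟩
    · intro i hi j hj hij
      by_cases hi' : i < n <;> by_cases hj' : j < n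
      · simp only [hi', hj', if_true] at hij
        exact h3 i hi' j hj' hij
      · simp only [hi', hj', if_true, if_false] at hij
        exact absurd hij (Finset.ne_of_mem_erase (h1 i hi'))
      · simp only [hi', hj', if_true, if_false] at hij
        exact absurd hij.symm (Finset.ne_of_mem_erase (h1 j hj'))
      · omega
    · intro i j hij hj
      by_cases hj' : j < n
      · have hi' : i < n := by omega
        simp only [hi', hj', if_true]
        exact h4 i j hij hj'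
      · by_cases hi' : i < n
        · simp only [hi', hj', if_true, if_false]
          exact hmin _ (Finset.mem_of_mem_erase (h1 i hi'))
        · simp only [hi', hj', if_false]; exact le_rfl

lemma FAM_satur_mono {M M' : Submodule ℤ L} (h : M ≤ M') : satur M ≤ satur M' := by
  rintro z ⟨a, ha, haz⟩
  exact ⟨a, ha, h haz⟩

lemma FAM_satur_eq {M : Submodule ℤ L} (h : IsSat M) : satur M = M :=
  le_antisymm (satur_le le_rfl h) (le_satur M)

lemma FAM_satur_inv (B : L ≃ₗ[ℤ] L) {M : Submodule ℤ L} (h : ∀ z ∈ M, B z ∈ M) :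
    ∀ z ∈ satur M, B z ∈ satur M := by
  rintro z ⟨a, ha, haz⟩
  refine ⟨a, ha, ?_⟩
  rw [← map_zsmul]
  exact h _ haz

lemma FAM_sup_inv (B : L ≃ₗ[ℤ] L) (s : Finset (Submodule ℤ L))
    (h : ∀ M ∈ s, ∀ z ∈ M, B z ∈ M) : ∀ z ∈ s.sup id, B z ∈ s.sup id := by
  classical
  have h1 : s.sup id ≤ (s.sup id).comap (B : L →ₗ[ℤ] L) := by
    apply Finset.sup_le
    intro M hM z hz
    exact (Finset.le_sup (f := id) hM : M ≤ s.sup id) (h M hM z hz)
  exact fun z hz => h1 hz

/-- the orbit lattice does not change along the orbit -/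
lemma FAM_Lam_pow (B : L ≃ₗ[ℤ] L) (q : ℕ) (x : L) : Lam B ((B ^ q) x) = Lam B x := by
  unfold Lam
  congr 2
  ext y
  constructor
  · rintro ⟨t, rfl⟩
    refine ⟨t + q, ?_⟩
    show (B ^ (t + (q : ℤ))) x = (B ^ t) ((B ^ q) x)
    rw [zpow_add, zpow_natCast]; rfl
  · rintro ⟨t, rfl⟩
    refine ⟨t - q, ?_⟩
    show (B ^ (t - (q : ℤ))) ((B ^ q) x) = (B ^ t) x
    rw [← zpow_natCast, ← LinearEquiv.mul_apply, ← zpow_add]
    congr 2; omega

/-- images of an isotropic orbit lattice are isotropic -/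
lemma FAM_Lam_iso (om : L →ₗ[ℤ] L →ₗ[ℤ] ℤ) (A : L ≃ₗ[ℤ] L)
    (hom : ∀ x y, om (A x) (A y) = om x y) (m₀ : ℕ) (n : L) (hn : Iso om (Lam (A ^ m₀) n))
    (r : ℕ) : Iso om (Lam (A ^ m₀) ((A ^ r) n)) := by
  have homr : ∀ r : ℕ, ∀ x y, om ((A ^ r) x) ((A ^ r) y) = om x y := by
    intro r
    induction r with
    | zero => intro x y; rfl
    | succ r ih =>
      intro x y
      rw [pow_succ]
      show om ((A ^ r) (A x)) ((A ^ r) (A y)) = _
      rw [ih, hom]
  have key : ∀ z ∈ Lam (A ^ m₀) ((A ^ r) n), ∃ z' ∈ Lam (A ^ m₀) n, z = (A ^ r) z' := by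
    rintro z ⟨a, ha, haz⟩
    refine ⟨(A ^ r).symm z, ⟨a, ha, ?_⟩, ((A ^ r).apply_symm_apply z).symm⟩
    rw [← map_zsmul]
    generalize a • z = w at haz
    induction haz using Submodule.span_induction with
    | mem x hx =>
      obtain ⟨t, rfl⟩ := hx
      apply Submodule.subset_span
      refine ⟨t, ?_⟩
      show ((A ^ m₀) ^ t) n = (A ^ r).symm (((A ^ m₀) ^ t) ((A ^ r) n))
      rw [LinearEquiv.eq_symm_apply, ← LinearEquiv.mul_apply, ← LinearEquiv.mul_apply]
      have h7 : Commute (A ^ r) ((A ^ m₀) ^ t) := by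
        apply Commute.zpow_right
        exact (Commute.refl A).pow_pow r m₀
      rw [h7.eq]
    | zero => rw [map_zero]; exact Submodule.zero_mem _
    | add x y _ _ hx hy => rw [map_add]; exact Submodule.add_mem _ hx hy
    | smul c x _ hx => rw [map_smul]; exact Submodule.smul_mem _ c hx
  intro x hx y hy
  obtain ⟨x', hx', rfl⟩ := key x hx
  obtain ⟨y', hy', rfl⟩ := key y hy
  rw [homr]
  exact hn x' hx' y' hy'

theorem FAM (om : L →ₗ[ℤ] L →ₗ[ℤ] ℤ) (A : L ≃ₗ[ℤ] L) (hom : ∀ x y, om (A x) (A y) = om x y)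
    (m₀ : ℕ) (hm₀ : 1 ≤ m₀) (S : Finset L) :
    ∃ (J : ℕ) (Lm : ℕ → Submodule ℤ L), 1 ≤ J ∧
      (∀ j < J, IsSat (Lm j)) ∧ (∀ j < J, Iso om (Lm j)) ∧
      (∀ j < J, ∀ z ∈ Lm j, (A ^ m₀) z ∈ Lm j) ∧
      (∀ i < J, ∀ j < J, Lm i = Lm j → i = j) ∧
      (∀ i j, i ≤ j → j < J → Module.finrank ℤ (Lm j) ≤ Module.finrank ℤ (Lm i)) ∧
      Lm (J - 1) = ⊥ ∧
      (∀ n ∈ S, Iso om (Lam (A ^ m₀) n) → ∀ t : ℕ, ∃ j < J, Lm j = Lam (A ^ m₀) ((A ^ t) n)) ∧
      (∀ i < J, ∀ j < J, Iso om (Lm i ⊔ Lm j) → ∃ l < J, Lm l = satur (Lm i ⊔ Lm j)) := by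
  classical
  set B := A ^ m₀ with hBdef
  let G : Finset (Submodule ℤ L) :=
    ((S.filter fun n => Iso om (Lam B n)) ×ˢ Finset.range m₀).image fun p => Lam B ((A ^ p.2) p.1)
  let F : Finset (Submodule ℤ L) := (G.powerset.image fun s => satur (s.sup id)).filter (Iso om)
  have hGinv : ∀ M ∈ G, ∀ z ∈ M, B z ∈ M := by
    intro M hM
    obtain ⟨p, -, rfl⟩ := Finset.mem_image.1 hM
    exact Lam_inv B _
  have hF : ∀ M, M ∈ F ↔ (∃ s, s ⊆ G ∧ satur (s.sup id) = M) ∧ Iso om M := by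
    intro M
    simp only [F, Finset.mem_filter, Finset.mem_image, Finset.mem_powerset]
  have hbotsat : IsSat (⊥ : Submodule ℤ L) := by
    intro a z ha haz
    rw [Submodule.mem_bot] at haz ⊢
    exact (smul_eq_zero.1 haz).resolve_left ha
  have hbot : (⊥ : Submodule ℤ L) ∈ F := by
    rw [hF]
    refine ⟨⟨∅, Finset.empty_subset _, ?_⟩, ?_⟩
    · rw [Finset.sup_empty]; exact FAM_satur_eq hbotsat
    · intro x hx y _
      rw [Submodule.mem_bot] at hx
      rw [hx]; simp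
  obtain ⟨g, g1, g2, g3, g4⟩ := FAM_sort (fun M : Submodule ℤ L => Module.finrank ℤ M) ⊥ F.card F rfl
  have hcard : 1 ≤ F.card := Finset.card_pos.2 ⟨_, hbot⟩
  refine ⟨F.card, g, hcard, ?_, ?_, ?_, g3, g4, ?_, ?_, ?_⟩
  · intro j hj
    obtain ⟨⟨s, hs, hsM⟩, -⟩ := (hF _).1 (g1 j hj)
    rw [← hsM]; exact satur_sat _
  · intro j hj
    exact ((hF _).1 (g1 j hj)).2
  · intro j hj
    obtain ⟨⟨s, hs, hsM⟩, -⟩ := (hF _).1 (g1 j hj)
    rw [← hsM]
    exact FAM_satur_inv B (FAM_sup_inv B s fun M hM => hGinv M (hs hM))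
  · obtain ⟨j, hj, hgj⟩ := g2 ⊥ hbot
    have h1 := g4 j (F.card - 1) (by omega) (by omega)
    rw [hgj] at h1
    have h2 : Module.finrank ℤ (⊥ : Submodule ℤ L) = 0 := finrank_bot ℤ L
    exact (MP_eq ⊥ (g (F.card - 1)) hbotsat bot_le (by simpa using h1)).symm
  · intro n hn hiso t
    apply g2
    rw [hF]
    have ht : Lam B ((A ^ t) n) = Lam B ((A ^ (t % m₀)) n) := by
      have h1 : (A ^ t) n = (B ^ (t / m₀)) ((A ^ (t % m₀)) n) := by
        rw [hBdef, ← pow_mul, ← LinearEquiv.mul_apply, ← pow_add, Nat.div_add_mod]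
      rw [h1, FAM_Lam_pow]
    refine ⟨⟨{Lam B ((A ^ t) n)}, ?_, ?_⟩, FAM_Lam_iso om A hom m₀ n hiso t⟩
    · rw [Finset.singleton_subset_iff, ht]
      apply Finset.mem_image.2
      refine ⟨(n, t % m₀), ?_, rfl⟩
      rw [Finset.mem_product, Finset.mem_filter, Finset.mem_range]
      exact ⟨⟨hn, hiso⟩, Nat.mod_lt _ hm₀⟩
    · rw [Finset.sup_singleton]
      exact FAM_satur_eq (Lam_sat B _)
  · intro i hi j hj hiso
    obtain ⟨⟨s, hs, hsM⟩, -⟩ := (hF _).1 (g1 i hi)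
    obtain ⟨⟨s', hs', hsM'⟩, -⟩ := (hF _).1 (g1 j hj)
    apply g2
    rw [hF]
    refine ⟨⟨s ∪ s', Finset.union_subset hs hs', ?_⟩, satur_iso hiso⟩
    rw [Finset.sup_union, ← hsM, ← hsM']
    apply le_antisymm
    · exact FAM_satur_mono (sup_le_sup (le_satur _) (le_satur _))
    · apply satur_le _ (satur_sat _)
      exact sup_le (FAM_satur_mono le_sup_left) (FAM_satur_mono le_sup_right)

end

end Pool.Agent.helper86.CM
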