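import Pool.Agent.helper10.CM.MP
import Pool.Agent.helper35.CM.LAT

/-! # CM project, module LI: differences of return times span the orbit lattice -/

open scoped BigOperators

namespace Pool.Agent.helper86.CM

noncomputable section

variable {L : Type} [AddCommGroup L] [Module.Free ℤ L] [Module.Finite ℤ L]

/-- the differences with the first `j` indices -/
def LI_set (B : L ≃ₗ[ℤ] L) (n : L) {d : ℕ} (h : Fin d → ℕ) (j : ℕ) : Set L :=
  {y | ∃ s s' : Finset (Fin d), (∀ i ∈ s, (i : ℕ) < j) ∧ (∀ i ∈ s', (i : ℕ) < j) ∧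
    y = (B ^ (∑ i ∈ s, h i)) n - (B ^ (∑ i ∈ s', h i)) n}

/-- their saturated span -/
def LI_M (B : L ≃ₗ[ℤ] L) (n : L) {d : ℕ} (h : Fin d → ℕ) (j : ℕ) : Submodule ℤ L :=
  satur (Submodule.span ℤ (LI_set B n h j))

lemma LI_satur_mono {M M' : Submodule ℤ L} (h : M ≤ M') : satur M ≤ satur M' := by
  rintro z ⟨a, ha, haz⟩
  exact ⟨a, ha, h haz⟩

lemma LI_set_mono (B : L ≃ₗ[ℤ] L) (n : L) {d : ℕ} (h : Fin d → ℕ) {j j' : ℕ} (hj : j ≤ j') :
    LI_set B n h j ⊆ LI_set B n h j' := by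
  rintro y ⟨s, s', h1, h2, rfl⟩
  exact ⟨s, s', fun i hi => lt_of_lt_of_le (h1 i hi) hj, fun i hi => lt_of_lt_of_le (h2 i hi) hj, rfl⟩

lemma LI_M_mono (B : L ≃ₗ[ℤ] L) (n : L) {d : ℕ} (h : Fin d → ℕ) {j j' : ℕ} (hj : j ≤ j') :
    LI_M B n h j ≤ LI_M B n h j' :=
  LI_satur_mono (Submodule.span_mono (LI_set_mono B n h hj))

/-- a power of `B` maps one level to the next -/
lemma LI_step (B : L ≃ₗ[ℤ] L) (n : L) {d : ℕ} (h : Fin d → ℕ) (j : Fin d) (z : L)
    (hz : z ∈ LI_M B n h j) : (B ^ h j) z ∈ LI_M B n h (j + 1) := by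
  classical
  obtain ⟨a, ha, haz⟩ := hz
  refine ⟨a, ha, ?_⟩
  rw [← map_zsmul]
  generalize a • z = w at haz
  induction haz using Submodule.span_induction with
  | mem x hx =>
    obtain ⟨s, s', h1, h2, rfl⟩ := hx
    apply Submodule.subset_span
    have hj : ∀ t : Finset (Fin d), (∀ i ∈ t, (i : ℕ) < j) → j ∉ t := fun t ht hjt =>
      absurd (ht j hjt) (lt_irrefl _)
    have hlt : ∀ t : Finset (Fin d), (∀ i ∈ t, (i : ℕ) < j) →
        ∀ i ∈ insert j t, (i : ℕ) < (j : ℕ) + 1 := by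
      intro t ht i hi
      rcases Finset.mem_insert.1 hi with rfl | hi
      · omega
      · have := ht i hi; omega
    refine ⟨insert j s, insert j s', hlt s h1, hlt s' h2, ?_⟩
    rw [Finset.sum_insert (hj s h1), Finset.sum_insert (hj s' h2), pow_add, pow_add, map_sub]
    rfl
  | zero => rw [map_zero]; exact Submodule.zero_mem _
  | add x y _ _ hx hy => rw [map_add]; exact Submodule.add_mem _ hx hy
  | smul c x _ hx => rw [map_smul]; exact Submodule.smul_mem _ c hx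

/-- the orbit lattice is contained in the saturated span of the differences -/
lemma LI_main (B : L ≃ₗ[ℤ] L) (hB : Erg B) (hMP : MPr B) (n : L) (d : ℕ)
    (hd : Module.finrank ℤ L < d) (h : Fin d → ℕ) (hh : ∀ i, 1 ≤ h i) :
    Lam B n ≤ LI_M B n h d := by
  classical
  have hex : ∃ j, j < d ∧ Module.finrank ℤ (LI_M B n h (j + 1)) ≤
      Module.finrank ℤ (LI_M B n h j) := by
    by_contra hcon
    push Not at hcon
    have : ∀ j, j ≤ d → j ≤ Module.finrank ℤ (LI_M B n h j) := by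
      intro j
      induction j with
      | zero => intro _; exact Nat.zero_le _
      | succ j ih =>
        intro hj
        have h1 := ih (by omega)
        have h2 := hcon j (by omega)
        omega
    have h1 := this d le_rfl
    have h2 : Module.finrank ℤ (LI_M B n h d) ≤ Module.finrank ℤ L := Submodule.finrank_le _
    omega
  obtain ⟨j, hjr, hfj⟩ := hex
  have heq : LI_M B n h j = LI_M B n h (j + 1) :=
    MP_eq _ _ (satur_sat _) (LI_M_mono B n h (Nat.le_succ j)) hfj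
  have hstep0 : ∀ z ∈ LI_M B n h j, (B ^ h ⟨j, hjr⟩) z ∈ LI_M B n h j := by
    intro z hz
    rw [heq]
    exact LI_step B n h ⟨j, hjr⟩ z hz
  have hn10 : (B ^ h ⟨j, hjr⟩) n - n ∈ LI_M B n h j := by
    rw [heq]
    apply le_satur
    apply Submodule.subset_span
    refine ⟨{⟨j, hjr⟩}, ∅, ?_, ?_, ?_⟩
    · intro i hi
      rw [Finset.mem_singleton] at hi
      rw [hi]; show j < j + 1; omega
    · intro i hi; simp at hi
    · rw [Finset.sum_singleton, Finset.sum_empty, pow_zero]; rfl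
  have hsat0 : IsSat (LI_M B n h j) := satur_sat _
  have hle0 : LI_M B n h j ≤ LI_M B n h d := LI_M_mono B n h (by omega)
  have ht0 : 1 ≤ h ⟨j, hjr⟩ := hh _
  revert hstep0 hn10 hsat0 hle0 ht0
  generalize h ⟨j, hjr⟩ = t
  generalize LI_M B n h d = M'
  generalize LI_M B n h j = M
  intro hstep hn1 hsat hle0 ht
  have hinv : ∀ z ∈ M, B z ∈ M := hMP t ht M hsat hstep
  have hinj : ∀ z, (B ^ t) z - z = 0 → z = 0 := fun z hz => hB t ht z (sub_eq_zero.1 hz)
  let T : L →ₗ[ℤ] L := ((B ^ t : L ≃ₗ[ℤ] L) : L →ₗ[ℤ] L) - LinearMap.id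
  have hT : ∀ z, T z = (B ^ t) z - z := fun z => rfl
  have hTinj : Function.Injective T := by
    rw [← LinearMap.ker_eq_bot, LinearMap.ker_eq_bot']
    intro z hz; exact hinj z hz
  have hle : M.map T ≤ M := by
    rintro _ ⟨z, hz, rfl⟩
    rw [hT]
    exact M.sub_mem (hstep z hz) hz
  have hrank : Module.finrank ℤ M ≤ Module.finrank ℤ (M.map T) := by
    rw [(Submodule.equivMapOfInjective T hTinj M).finrank_eq]
  obtain ⟨a, ha, hax⟩ := MP_tors (M.map T) M hle hrank _ hn1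
  obtain ⟨m', hm', hTm'⟩ := hax
  have h1 : T (a • n - m') = 0 := by
    rw [map_sub, hTm', map_smul, hT, sub_self]
  have h2 : a • n - m' = 0 := hTinj (by rw [h1, map_zero])
  have h3 : a • n ∈ M := by
    rw [sub_eq_zero.1 h2]; exact hm'
  have h4 : n ∈ M := hsat a n ha h3
  exact (Lam_min B n M hsat hinv h4).trans hle0

theorem LI (B : L ≃ₗ[ℤ] L) (hB : Erg B) (hMP : MPr B) (n : L) (R : ℕ) :
    ∃ D : ℕ, 1 ≤ D ∧ ∀ h : Fin (Module.finrank ℤ L + 1) → ℕ, (∀ i, 1 ≤ h i ∧ h i ≤ R) →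
      ∀ m ∈ Lam B n, D • m ∈ Submodule.span ℤ
        {y | ∃ s s' : Finset (Fin (Module.finrank ℤ L + 1)),
          y = (B ^ (∑ i ∈ s, h i)) n - (B ^ (∑ i ∈ s', h i)) n} := by
  classical
  have hex : ∀ h : Fin (Module.finrank ℤ L + 1) → ℕ, ∃ D : ℕ, 1 ≤ D ∧
      ((∀ i, 1 ≤ h i) → ∀ m ∈ Lam B n, D • m ∈ Submodule.span ℤ
        {y | ∃ s s' : Finset (Fin (Module.finrank ℤ L + 1)),
          y = (B ^ (∑ i ∈ s, h i)) n - (B ^ (∑ i ∈ s', h i)) n}) := by
    intro h
    obtain ⟨D, hD, hD'⟩ := satur_expo (Submodule.span ℤ (LI_set B n h (Module.finrank ℤ L + 1)))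
    refine ⟨D, hD, fun hh m hm => ?_⟩
    have h1 := hD' m (LI_main B hB hMP n _ (Nat.lt_succ_self _) h hh hm)
    apply Submodule.span_mono _ h1
    rintro y ⟨s, s', -, -, hy⟩
    exact ⟨s, s', hy⟩
  choose D hD1 hD2 using hex
  let F : Finset (Fin (Module.finrank ℤ L + 1) → ℕ) := Fintype.piFinset fun _ => Finset.Icc 1 R
  refine ⟨∏ h ∈ F, D h, Nat.one_le_iff_ne_zero.2 (Finset.prod_ne_zero_iff.2 fun h _ => by
    have := hD1 h; omega), ?_⟩
  intro h hh m hm
  have hF : h ∈ F := by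
    rw [Fintype.mem_piFinset]
    intro i
    rw [Finset.mem_Icc]; exact hh i
  obtain ⟨c, hc⟩ := Finset.dvd_prod_of_mem D hF
  rw [hc, mul_comm, mul_smul]
  exact Submodule.smul_of_tower_mem _ c (hD2 h (fun i => (hh i).1) m hm)

end

end Pool.Agent.helper86.CM
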