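import Pool.Agent.helper86.CM.Defs2

/-! # CM project, module MP (and a lemma on submodules of equal rank) -/

open scoped BigOperators

namespace Pool.Agent.helper86.CM

noncomputable section

/-- submodules of equal rank: the quotient is torsion -/
theorem MP_tors {V : Type} [AddCommGroup V] [Module.Finite ℤ V] (N N' : Submodule ℤ V)
    (h : N ≤ N') (hr : Module.finrank ℤ N' ≤ Module.finrank ℤ N) (x : V) (hx : x ∈ N') :
    ∃ a : ℤ, a ≠ 0 ∧ a • x ∈ N := by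
  let Q : Submodule ℤ N' := N.comap N'.subtype
  have e : Q ≃ₗ[ℤ] N := Submodule.comapSubtypeEquivOfLe h
  have h1 : Module.finrank ℤ (N' ⧸ Q) + Module.finrank ℤ Q = Module.finrank ℤ N' :=
    Submodule.finrank_quotient_add_finrank Q
  rw [e.finrank_eq] at h1
  have h2 : Module.finrank ℤ (N' ⧸ Q) = 0 := by omega
  have h3 := (Module.finrank_eq_zero_iff_isTorsion (R := ℤ) (M := N' ⧸ Q)).1 h2
  have h4 := @h3 (Submodule.Quotient.mk ⟨x, hx⟩)
  obtain ⟨a, ha⟩ := h4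
  refine ⟨a, nonZeroDivisors.coe_ne_zero a, ?_⟩
  have h5 : (Submodule.Quotient.mk ((a : ℤ) • (⟨x, hx⟩ : N')) : N' ⧸ Q) = 0 := ha
  rw [Submodule.Quotient.mk_eq_zero] at h5
  exact h5

/-- a saturated submodule of full rank is everything -/
theorem MP_eq {V : Type} [AddCommGroup V] [Module.Finite ℤ V] (N N' : Submodule ℤ V)
    (hN : IsSat N) (h : N ≤ N') (hr : Module.finrank ℤ N' ≤ Module.finrank ℤ N) : N = N' := by
  apply le_antisymm h
  intro x hx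
  obtain ⟨a, ha, hax⟩ := MP_tors N N' h hr x hx
  exact hN a x ha hax

variable {L : Type} [AddCommGroup L] [Module.Free ℤ L] [Module.Finite ℤ L]

theorem MP (A : L ≃ₗ[ℤ] L) : ∃ m₀ : ℕ, 1 ≤ m₀ ∧ MPr (A ^ m₀) := by
  classical
  let S : ℕ → Submodule ℤ (L →ₗ[ℤ] L) := fun m =>
    Submodule.span ℤ (Set.range fun j : ℕ => ((A ^ (m * j) : L ≃ₗ[ℤ] L) : L →ₗ[ℤ] L))
  let r : ℕ → ℕ := fun m => Module.finrank ℤ (S m)
  have hex : ∃ d, ∃ m, 1 ≤ m ∧ r m = d := ⟨r 1, 1, le_rfl, rfl⟩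
  obtain ⟨m₀, hm0, hr⟩ := Nat.find_spec hex
  have hmin : ∀ m, 1 ≤ m → r m₀ ≤ r m := by
    intro m hm
    rw [hr]
    exact Nat.find_min' hex ⟨m, hm, rfl⟩
  refine ⟨m₀, hm0, ?_⟩
  intro h hh M hM hinv z hz
  have hle : S (m₀ * h) ≤ S m₀ := by
    apply Submodule.span_le.2
    rintro _ ⟨j, rfl⟩
    apply Submodule.subset_span
    refine ⟨h * j, ?_⟩
    show ((A ^ (m₀ * (h * j)) : L ≃ₗ[ℤ] L) : L →ₗ[ℤ] L) = ((A ^ (m₀ * h * j) : L ≃ₗ[ℤ] L) : L →ₗ[ℤ] L)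
    rw [mul_assoc]
  have hmem : ((A ^ m₀ : L ≃ₗ[ℤ] L) : L →ₗ[ℤ] L) ∈ S m₀ := by
    apply Submodule.subset_span
    refine ⟨1, ?_⟩
    show ((A ^ (m₀ * 1) : L ≃ₗ[ℤ] L) : L →ₗ[ℤ] L) = _
    rw [mul_one]
  obtain ⟨a, ha, hax⟩ := MP_tors (S (m₀ * h)) (S m₀) hle (hmin _ (Nat.mul_pos hm0 hh)) _ hmem
  have hpow : ∀ j : ℕ, ∀ w ∈ M, (A ^ (m₀ * h * j)) w ∈ M := by
    intro j
    induction j with
    | zero => intro w hw; simpa using hw
    | succ j ih =>
      intro w hw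
      have h1 : (A ^ (m₀ * h * (j + 1))) w = ((A ^ m₀) ^ h) ((A ^ (m₀ * h * j)) w) := by
        rw [← pow_mul, ← LinearEquiv.mul_apply, ← pow_add]
        congr 2
        ring
      rw [h1]
      exact hinv _ (ih w hw)
  have hall : ∀ f ∈ S (m₀ * h), ∀ w ∈ M, f w ∈ M := by
    intro f hf w hw
    induction hf using Submodule.span_induction with
    | mem x hx =>
      obtain ⟨j, rfl⟩ := hx
      exact hpow j w hw
    | zero => exact M.zero_mem
    | add x y _ _ hx hy => exact M.add_mem hx hy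
    | smul c x _ hx => exact M.smul_mem c hx
  have h2 := hall _ hax z hz
  exact hM a _ ha h2

end

end Pool.Agent.helper86.CM
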