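import Pool.Agent.helper86.CM.Defs2

/-! # CM project, module PER -/

open scoped BigOperators

namespace Pool.Agent.helper86.CM

noncomputable section

variable {L : Type} [AddCommGroup L] [Module.Free ℤ L] [Module.Finite ℤ L]

/-- powers congruent to the identity -/
theorem PER (B : L ≃ₗ[ℤ] L) (M : ℕ) (hM : 1 ≤ M) :
    ∃ m : ℕ, 1 ≤ m ∧ ∀ z, ∃ y, (B ^ m) z = z + M • y := by
  classical
  have : NeZero M := ⟨by omega⟩
  let b := Module.Free.chooseBasis ℤ L
  let ι := Module.Free.ChooseBasisIndex ℤ L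
  let f : ℕ → (ι → ι → ZMod M) := fun m i j => ((b.repr ((B ^ m) (b i)) j : ℤ) : ZMod M)
  obtain ⟨m1, m2, hne, hf⟩ := Finite.exists_ne_map_eq_of_infinite f
  wlog hlt : m1 < m2 generalizing m1 m2
  · exact this m2 m1 hne.symm hf.symm (by omega)
  have key : ∀ z, ∃ y, (B ^ m2) z - (B ^ m1) z = M • y := by
    let T : L →ₗ[ℤ] L := ((B ^ m2 : L ≃ₗ[ℤ] L) : L →ₗ[ℤ] L) - ((B ^ m1 : L ≃ₗ[ℤ] L) : L →ₗ[ℤ] L)
    let P : Submodule ℤ L := LinearMap.range ((M : ℤ) • (LinearMap.id : L →ₗ[ℤ] L))
    have hP : ∀ z, T z ∈ P := by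
      intro z
      have hz : z ∈ Submodule.span ℤ (Set.range b) := by rw [b.span_eq]; trivial
      induction hz using Submodule.span_induction with
      | mem x hx =>
        obtain ⟨i, rfl⟩ := hx
        set w := T (b i) with hw
        have hd : ∀ j, (M : ℤ) ∣ b.repr w j := by
          intro j
          have h1 : ((b.repr ((B ^ m1) (b i)) j : ℤ) : ZMod M) = ((b.repr ((B ^ m2) (b i)) j : ℤ) : ZMod M) :=
            congrFun (congrFun hf i) j
          have h2 := (ZMod.intCast_eq_intCast_iff_dvd_sub _ _ _).1 h1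
          have h3 : b.repr w j = b.repr ((B ^ m2) (b i)) j - b.repr ((B ^ m1) (b i)) j := by
            rw [hw]; simp [T]
          rw [h3]; exact h2
        refine ⟨∑ j, (b.repr w j / M) • b j, ?_⟩
        apply b.repr.injective
        ext j
        have h4 : (M : ℤ) * (b.repr w j / M) = b.repr w j := Int.mul_ediv_cancel' (hd j)
        have h5 : b.repr (∑ j, (b.repr w j / M) • b j) j = b.repr w j / M := by
          rw [b.repr_sum_self]
        rw [LinearMap.smul_apply, LinearMap.id_apply, map_smul, Finsupp.smul_apply, h5, smul_eq_mul, h4]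
      | zero => rw [map_zero]; exact P.zero_mem
      | add x y _ _ hx hy => rw [map_add]; exact P.add_mem hx hy
      | smul c x _ hx => rw [map_smul]; exact P.smul_mem c hx
    intro z
    obtain ⟨y, hy⟩ := hP z
    refine ⟨y, ?_⟩
    have : T z = (B ^ m2) z - (B ^ m1) z := rfl
    rw [← this, ← hy]
    simp
  refine ⟨m2 - m1, by omega, fun z => ?_⟩
  obtain ⟨y, hy⟩ := key ((B ^ m1).symm z)
  refine ⟨y, ?_⟩
  have h1 : (B ^ m1) ((B ^ m1).symm z) = z := LinearEquiv.apply_symm_apply _ _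
  have h2 : (B ^ m2) ((B ^ m1).symm z) = (B ^ (m2 - m1)) z := by
    have h3 : B ^ m2 = B ^ (m2 - m1) * B ^ m1 := by
      rw [← pow_add]; congr 1; omega
    rw [h3, LinearEquiv.mul_apply, h1]
  rw [h1, h2] at hy
  rw [← hy]; abel

end

end Pool.Agent.helper86.CM
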